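import Pool.Agent.H933.RN.Stm
import Pool.Graph.R_seed8.W706.HIR.Final

/-!
# Finite rank corrections off the range of `j` (task P_fin of helper933)
-/

set_option autoImplicit false
set_option linter.all false
set_option linter.unusedSectionVars false
set_option linter.style.haveILetI false

open MeasureTheory Metric
open scoped Real InnerProductSpace

namespace Pool.Agent.H920.RN.FinR

section A

variable {G : Type} [NormedAddCommGroup G] [InnerProductSpace ℂ G] [CompleteSpace G]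

/-- finite rank -/
def FR (R : G →L[ℂ] G) : Prop := FiniteDimensional ℂ (LinearMap.range (R : G →ₗ[ℂ] G))

lemma FR.zero : FR (0 : G →L[ℂ] G) := by
  unfold FR
  have : LinearMap.range ((0 : G →L[ℂ] G) : G →ₗ[ℂ] G) = ⊥ := by
    rw [ContinuousLinearMap.toLinearMap_zero, LinearMap.range_zero]
  rw [this]
  infer_instance

lemma FR.add {R S : G →L[ℂ] G} (hR : FR R) (hS : FR S) : FR (R + S) := by
  unfold FR at *
  have h : LinearMap.range ((R + S : G →L[ℂ] G) : G →ₗ[ℂ] G) ≤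
      LinearMap.range (R : G →ₗ[ℂ] G) ⊔ LinearMap.range (S : G →ₗ[ℂ] G) := by
    rintro _ ⟨x, rfl⟩
    exact Submodule.add_mem_sup ⟨x, rfl⟩ ⟨x, rfl⟩
  exact Submodule.finiteDimensional_of_le h

lemma FR.smul {R : G →L[ℂ] G} (hR : FR R) (c : ℂ) : FR (c • R) := by
  unfold FR at *
  have h : LinearMap.range ((c • R : G →L[ℂ] G) : G →ₗ[ℂ] G) ≤
      LinearMap.range (R : G →ₗ[ℂ] G) := by
    rintro _ ⟨x, rfl⟩
    exact ⟨c • x, by simp⟩
  exact Submodule.finiteDimensional_of_le h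

lemma FR.comp {R : G →L[ℂ] G} (hR : FR R) (V : G →L[ℂ] G) : FR (V * R) := by
  unfold FR at *
  have h : LinearMap.range ((V * R : G →L[ℂ] G) : G →ₗ[ℂ] G) =
      (LinearMap.range (R : G →ₗ[ℂ] G)).map (V : G →ₗ[ℂ] G) := by
    ext y
    simp
  rw [h]
  infer_instance

lemma FR.rank_one (φ : G →L[ℂ] ℂ) (y : G) : FR (φ.smulRight y) := by
  unfold FR
  have h : LinearMap.range ((φ.smulRight y : G →L[ℂ] G) : G →ₗ[ℂ] G) ≤ Submodule.span ℂ {y} := by
    rintro _ ⟨x, rfl⟩
    exact Submodule.smul_mem _ _ (Submodule.mem_span_singleton_self y)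
  exact Submodule.finiteDimensional_of_le h

lemma FR.compact {R : G →L[ℂ] G} (hR : FR R) : IsCompactOperator R := by
  unfold FR at hR
  haveI := hR
  haveI : ProperSpace (LinearMap.range (R : G →ₗ[ℂ] G)) := FiniteDimensional.proper ℂ _
  let Rc : G →L[ℂ] LinearMap.range (R : G →ₗ[ℂ] G) := R.codRestrict _ (fun x => ⟨x, rfl⟩)
  have h1 : IsCompactOperator Rc := isCompactOperator_of_locallyCompactSpace_dom Rc
  have h2 := h1.clm_comp (LinearMap.range (R : G →ₗ[ℂ] G)).subtypeL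
  exact h2

/-- Fredholm alternative for a unit minus a compact operator -/
lemma alt (U : (G →L[ℂ] G)ˣ) {K : G →L[ℂ] G} (hK : IsCompactOperator K)
    (hinj : ∀ x, (U : G →L[ℂ] G) x - K x = 0 → x = 0) : IsUnit ((U : G →L[ℂ] G) - K) := by
  have hT : IsCompactOperator (((U⁻¹ : (G →L[ℂ] G)ˣ) : G →L[ℂ] G) * K : G →L[ℂ] G) :=
    hK.clm_comp ((U⁻¹ : (G →L[ℂ] G)ˣ) : G →L[ℂ] G)
  rcases hT.hasEigenvalue_or_mem_resolventSet (μ := (1 : ℂ)) one_ne_zero with h | h
  · exfalso
    obtain ⟨x, hx⟩ := h.exists_hasEigenvector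
    have h1 : ((U⁻¹ : (G →L[ℂ] G)ˣ) : G →L[ℂ] G) (K x) = x := by
      have := hx.apply_eq_smul
      simpa using this
    have h2 : (U : G →L[ℂ] G) x = K x := by
      have h3 : (U : G →L[ℂ] G) (((U⁻¹ : (G →L[ℂ] G)ˣ) : G →L[ℂ] G) (K x)) = K x := by
        rw [← ContinuousLinearMap.mul_apply, Units.mul_inv, ContinuousLinearMap.one_apply]
      rw [h1] at h3
      exact h3
    exact hx.2 (hinj x (by rw [h2, sub_self]))
  · rw [spectrum.mem_resolventSet_iff, map_one] at h
    have : (U : G →L[ℂ] G) - K =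
        (U : G →L[ℂ] G) * (1 - ((U⁻¹ : (G →L[ℂ] G)ˣ) : G →L[ℂ] G) * K) := by
      rw [mul_sub, mul_one, ← mul_assoc, Units.mul_inv, one_mul]
    rw [this]
    exact U.isUnit.mul h

lemma surj_unit (U : (G →L[ℂ] G)ˣ) {K : G →L[ℂ] G} (hK : IsCompactOperator K)
    (hs : Function.Surjective ((U : G →L[ℂ] G) - K : G →L[ℂ] G)) : IsUnit ((U : G →L[ℂ] G) - K) := by
  have hK' : IsCompactOperator (ContinuousLinearMap.adjoint K) :=
    Pool.Agent.W706.HIR.compact_adjoint hK
  have h := alt (star U) hK' (fun x hx => by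
    have h1 : ContinuousLinearMap.adjoint ((U : G →L[ℂ] G) - K) x = 0 := by
      rw [map_sub]
      exact hx
    obtain ⟨y, hy⟩ := hs x
    have h2 : ⟪x, x⟫_ℂ = 0 := by
      nth_rewrite 2 [← hy]
      rw [← ContinuousLinearMap.adjoint_inner_left, h1, inner_zero_left]
    exact inner_self_eq_zero.mp h2)
  have h3 : ((star U : (G →L[ℂ] G)ˣ) : G →L[ℂ] G) - ContinuousLinearMap.adjoint K =
      star ((U : G →L[ℂ] G) - K) := by
    rw [star_sub]
    rfl
  rw [h3] at h
  have h4 := h.star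
  rwa [star_star] at h4

lemma ker_fd (U : (G →L[ℂ] G)ˣ) {K : G →L[ℂ] G} (hK : IsCompactOperator K) :
    FiniteDimensional ℂ (LinearMap.ker (((U : G →L[ℂ] G) - K : G →L[ℂ] G) : G →ₗ[ℂ] G)) := by
  set W := LinearMap.ker (((U : G →L[ℂ] G) - K : G →L[ℂ] G) : G →ₗ[ℂ] G) with hW
  let T : G →L[ℂ] G := ((U⁻¹ : (G →L[ℂ] G)ˣ) : G →L[ℂ] G) * K
  have hT : IsCompactOperator T := hK.clm_comp ((U⁻¹ : (G →L[ℂ] G)ˣ) : G →L[ℂ] G)
  have hTw : ∀ x ∈ W, T x = x := by
    intro x hx
    have h1 : (U : G →L[ℂ] G) x - K x = 0 := hx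
    have h2 : K x = (U : G →L[ℂ] G) x := (sub_eq_zero.mp h1).symm
    change ((U⁻¹ : (G →L[ℂ] G)ˣ) : G →L[ℂ] G) (K x) = x
    rw [h2, ← ContinuousLinearMap.mul_apply, Units.inv_mul, ContinuousLinearMap.one_apply]
  have hcl : IsClosed (W : Set G) := ((U : G →L[ℂ] G) - K).isClosed_ker
  haveI := hcl.completeSpace_coe
  have h1 := hT.restrict' (f := (T : G →ₗ[ℂ] G)) (V := W) (fun x hx => by
    change T x ∈ W
    rw [hTw x hx]; exact hx)
  refine FiniteDimensional.of_isCompactOperator_id (𝕜 := ℂ) ?_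
  have : (id : W → W) = ((T : G →ₗ[ℂ] G).restrict (p := W) (q := W) (fun x hx => by
    change T x ∈ W
    rw [hTw x hx]; exact hx)) := by
    funext x
    apply Subtype.ext
    exact (hTw x x.2).symm
  rw [this]
  exact h1

end A

section B

variable {G V : Type} [NormedAddCommGroup G] [InnerProductSpace ℂ G] [CompleteSpace G]
  [NormedAddCommGroup V] [InnerProductSpace ℂ V] [CompleteSpace V]

/-- one point -/
lemma single (U : (G →L[ℂ] G)ˣ) (A : V →L[ℂ] V) (j : V →L[ℂ] G) (l : G →L[ℂ] V)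
    (hl : ∀ v, l (j v) = v) (hA : ∀ v, A v = 0 → v = 0) (n : ℕ) :
    ∀ K : G →L[ℂ] G, IsCompactOperator K →
    (∀ v, (U : G →L[ℂ] G) (j v) - K (j v) = j (A v)) →
    Module.finrank ℂ (LinearMap.ker (((U : G →L[ℂ] G) - K : G →L[ℂ] G) : G →ₗ[ℂ] G)) ≤ n →
    ∃ R : G →L[ℂ] G, FR R ∧ (∀ v, R (j v) = 0) ∧ IsUnit ((U : G →L[ℂ] G) - K + R) := by
  induction n with
  | zero =>
    intro K hK hj hn
    haveI := ker_fd U hK
    refine ⟨0, FR.zero, fun v => rfl, ?_⟩
    rw [add_zero]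
    have h0 : LinearMap.ker (((U : G →L[ℂ] G) - K : G →L[ℂ] G) : G →ₗ[ℂ] G) = ⊥ :=
      Submodule.finrank_eq_zero.mp (Nat.le_zero.mp hn)
    refine alt U hK fun x hx => ?_
    have : x ∈ LinearMap.ker (((U : G →L[ℂ] G) - K : G →L[ℂ] G) : G →ₗ[ℂ] G) := hx
    rw [h0] at this
    exact (Submodule.mem_bot ℂ).mp this
  | succ n ih =>
    intro K hK hj hn
    haveI := ker_fd U hK
    by_cases hu : IsUnit ((U : G →L[ℂ] G) - K)
    · exact ⟨0, FR.zero, fun v => rfl, by rwa [add_zero]⟩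
    have hns : ¬ Function.Surjective ((U : G →L[ℂ] G) - K : G →L[ℂ] G) := fun h =>
      hu (surj_unit U hK h)
    have hni : ∃ x, (U : G →L[ℂ] G) x - K x = 0 ∧ x ≠ 0 := by
      by_contra h
      push Not at h
      exact hu (alt U hK h)
    obtain ⟨x₀, hx₀, hx₀'⟩ := hni
    rw [Function.Surjective] at hns
    push Not at hns
    obtain ⟨y, hy⟩ := hns
    set z : G := x₀ - j (l x₀) with hz
    have hz0 : z ≠ 0 := by
      intro h
      have h1 : x₀ = j (l x₀) := sub_eq_zero.mp h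
      rw [h1, hj] at hx₀
      have h2 : A (l x₀) = 0 := by
        have := congrArg l hx₀
        rwa [hl, map_zero] at this
      have h3 := hA _ h2
      rw [h3, map_zero] at h1
      exact hx₀' h1
    let pr : G →L[ℂ] ℂ := (innerSL ℂ z).comp (ContinuousLinearMap.id ℂ G - j.comp l)
    have hpr : ∀ x, pr x = ⟪z, x - j (l x)⟫_ℂ := fun x => rfl
    have hprj : ∀ v, pr (j v) = 0 := fun v => by rw [hpr, hl, sub_self, inner_zero_right]
    have hprx : pr x₀ ≠ 0 := by
      rw [hpr, ← hz]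
      exact inner_self_ne_zero.mpr hz0
    set R₁ : G →L[ℂ] G := pr.smulRight y with hR₁
    have hK₁ : IsCompactOperator (K - R₁ : G →L[ℂ] G) := hK.sub (FR.rank_one pr y).compact
    have hjK : ∀ v, (U : G →L[ℂ] G) (j v) - (K - R₁) (j v) = j (A v) := by
      intro v
      rw [ContinuousLinearMap.sub_apply]
      have : R₁ (j v) = 0 := by
        rw [hR₁, ContinuousLinearMap.smulRight_apply, hprj, zero_smul]
      rw [this, sub_zero]
      exact hj v
    have hlt : LinearMap.ker (((U : G →L[ℂ] G) - (K - R₁) : G →L[ℂ] G) : G →ₗ[ℂ] G) <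
        LinearMap.ker (((U : G →L[ℂ] G) - K : G →L[ℂ] G) : G →ₗ[ℂ] G) := by
      have key : ∀ x, (U : G →L[ℂ] G) x - (K - R₁) x = 0 →
          ((U : G →L[ℂ] G) x - K x = 0 ∧ pr x = 0) := by
        intro x hx
        rw [ContinuousLinearMap.sub_apply, hR₁, ContinuousLinearMap.smulRight_apply] at hx
        have h1 : ((U : G →L[ℂ] G) - K) x = - (pr x • y) := by
          rw [ContinuousLinearMap.sub_apply]
          have : (U : G →L[ℂ] G) x - (K x - pr x • y) = ((U : G →L[ℂ] G) x - K x) + pr x • y := by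
            abel
          rw [this] at hx
          exact eq_neg_of_add_eq_zero_left hx
        by_cases hp : pr x = 0
        · refine ⟨?_, hp⟩
          rw [hp, zero_smul, neg_zero, ContinuousLinearMap.sub_apply] at h1
          exact h1
        · exfalso
          refine hy (-(pr x)⁻¹ • x) ?_
          rw [map_smul, h1, smul_neg, neg_smul, neg_neg, smul_smul, inv_mul_cancel₀ hp, one_smul]
      refine lt_of_le_of_ne (fun x hx => (key x hx).1) fun h => ?_
      have : x₀ ∈ LinearMap.ker (((U : G →L[ℂ] G) - (K - R₁) : G →L[ℂ] G) : G →ₗ[ℂ] G) := by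
        rw [h]; exact hx₀
      exact hprx (key x₀ this).2
    have hn' := Submodule.finrank_lt_finrank_of_lt hlt
    obtain ⟨R₂, h1, h2, h3⟩ := ih (K - R₁) hK₁ hjK (by omega)
    refine ⟨R₁ + R₂, (FR.rank_one pr y).add h1, fun v => ?_, ?_⟩
    · rw [ContinuousLinearMap.add_apply, h2, add_zero, hR₁, ContinuousLinearMap.smulRight_apply,
        hprj, zero_smul]
    · have : (U : G →L[ℂ] G) - K + (R₁ + R₂) = (U : G →L[ℂ] G) - (K - R₁) + R₂ := by abel
      rw [this]
      exact h3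

/-- the couplings for which a point is in the spectrum -/
lemma bad_finite {T M : G →L[ℂ] G} (hM : FR M) (b κ₀ : ℂ) (h0 : b ∈ resolventSet ℂ (T + κ₀ • M)) :
    {κ : ℂ | b ∉ resolventSet ℂ (T + κ • M)}.Finite := by
  rw [spectrum.mem_resolventSet_iff] at h0
  obtain ⟨U, hU⟩ := h0
  set X : G →L[ℂ] G := ((U⁻¹ : (G →L[ℂ] G)ˣ) : G →L[ℂ] G) * M with hX
  have hXF : FR X := hM.comp _
  have hXc : IsCompactOperator X := hXF.compact
  haveI : FiniteDimensional ℂ (LinearMap.range (X : G →ₗ[ℂ] G)) := hXF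
  let Xr : LinearMap.range (X : G →ₗ[ℂ] G) →ₗ[ℂ] LinearMap.range (X : G →ₗ[ℂ] G) :=
    (X : G →ₗ[ℂ] G).restrict (fun x _ => ⟨x, rfl⟩)
  have hfin : {μ : ℂ | Module.End.HasEigenvalue Xr μ}.Finite := Module.End.finite_hasEigenvalue Xr
  refine (hfin.image (fun μ => κ₀ + μ⁻¹)).subset fun κ hκ => ?_
  have hκ' : ¬ IsUnit (algebraMap ℂ (G →L[ℂ] G) b - (T + κ • M)) := hκ
  have hne : κ - κ₀ ≠ 0 := by
    intro h
    rw [sub_eq_zero.mp h, ← hU] at hκ'
    exact hκ' U.isUnit
  have e1 : algebraMap ℂ (G →L[ℂ] G) b - (T + κ • M) =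
      ((κ - κ₀) • (U : G →L[ℂ] G)) * (algebraMap ℂ (G →L[ℂ] G) (κ - κ₀)⁻¹ - X) := by
    have e0 : ((κ - κ₀) • (U : G →L[ℂ] G)) * X = (κ - κ₀) • M := by
      rw [hX, smul_mul_assoc, ← mul_assoc, Units.mul_inv, one_mul]
    have e2 : ((κ - κ₀) • (U : G →L[ℂ] G)) * algebraMap ℂ (G →L[ℂ] G) (κ - κ₀)⁻¹ = (U : G →L[ℂ] G) := by
      rw [Algebra.algebraMap_eq_smul_one, mul_smul_comm, mul_one, smul_smul, inv_mul_cancel₀ hne,
        one_smul]
    rw [mul_sub, e0, e2, hU, sub_smul]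
    abel
  have h2 : (κ - κ₀)⁻¹ ∈ spectrum ℂ X := by
    intro h
    rw [spectrum.mem_resolventSet_iff] at h
    apply hκ'
    rw [e1]
    refine IsUnit.mul ?_ h
    have : IsUnit ((Units.mk0 (κ - κ₀) hne) • (U : G →L[ℂ] G)) := U.isUnit.smul _
    exact this
  have h3 := (hXc.hasEigenvalue_iff_mem_spectrum (inv_ne_zero hne)).mpr h2
  obtain ⟨x, hx⟩ := h3.exists_hasEigenvector
  have h4 : X x = (κ - κ₀)⁻¹ • x := hx.apply_eq_smul
  have hxr : x ∈ LinearMap.range (X : G →ₗ[ℂ] G) := by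
    refine ⟨(κ - κ₀) • x, ?_⟩
    change X ((κ - κ₀) • x) = x
    rw [map_smul, h4, smul_smul, mul_inv_cancel₀ hne, one_smul]
  refine ⟨(κ - κ₀)⁻¹, ?_, by simp⟩
  refine Module.End.hasEigenvalue_of_hasEigenvector (x := ⟨x, hxr⟩) ⟨?_, ?_⟩
  · rw [Module.End.mem_eigenspace_iff]
    apply Subtype.ext
    exact h4
  · intro h
    exact hx.2 (congrArg Subtype.val h)

end B

end Pool.Agent.H920.RN.FinR

namespace Pool.Agent.H920.RN

open Pool.Agent.H933.RN FinR

theorem p_fin : P_fin := by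
  intro G V _ _ _ _ _ _ N K A j l B hK hl hj hB
  classical
  change ∃ R : G →L[ℂ] G, FR R ∧ _
  induction B using Finset.induction_on with
  | empty => exact ⟨0, FR.zero, fun v => rfl, by simp⟩
  | insert b' B hb ih =>
    obtain ⟨R, hR1, hR2, hR3⟩ := ih fun b hb => hB b (Finset.mem_insert_of_mem hb)
    obtain ⟨hb1, hb2⟩ := hB b' (Finset.mem_insert_self _ _)
    rw [spectrum.mem_resolventSet_iff] at hb1 hb2
    obtain ⟨U, hU⟩ := hb1
    obtain ⟨UA, hUA⟩ := hb2
    have hKR : IsCompactOperator (K + R : G →L[ℂ] G) := hK.add hR1.compact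
    haveI := ker_fd U hKR
    obtain ⟨S, hS1, hS2, hS3⟩ := single U (UA : V →L[ℂ] V) j l hl (fun v hv => by
        have : ((UA⁻¹ : (V →L[ℂ] V)ˣ) : V →L[ℂ] V) ((UA : V →L[ℂ] V) v) = v := by
          rw [← ContinuousLinearMap.mul_apply, Units.inv_mul, ContinuousLinearMap.one_apply]
        rw [hv, map_zero] at this
        exact this.symm) _ (K + R) hKR (fun v => by
        have h1 := hj v
        rw [hU, hUA]
        simp only [ContinuousLinearMap.sub_apply, ContinuousLinearMap.add_apply,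
          Algebra.algebraMap_eq_smul_one, ContinuousLinearMap.smul_apply,
          ContinuousLinearMap.one_apply, map_sub, map_smul, hR2, add_zero] at h1 ⊢
        rw [← h1]
        abel) le_rfl
    set M : G →L[ℂ] G := -S with hM
    have hMF : FR M := by
      have := hS1.smul (-1)
      rwa [neg_one_smul] at this
    have hMj : ∀ v, M (j v) = 0 := fun v => by
      rw [hM, ContinuousLinearMap.neg_apply, hS2, neg_zero]
    have hbad : (⋃ b ∈ insert b' B, {κ : ℂ | b ∉ resolventSet ℂ (N + (K + R) + κ • M)}).Finite := by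
      refine Set.Finite.biUnion (Finset.finite_toSet _) fun b hbm => ?_
      rcases Finset.mem_insert.mp hbm with rfl | hbm
      · refine bad_finite hMF b 1 ?_
        rw [one_smul, spectrum.mem_resolventSet_iff]
        have : algebraMap ℂ (G →L[ℂ] G) b - (N + (K + R) + M) = (U : G →L[ℂ] G) - (K + R) + S := by
          rw [hU, hM]; abel
        rw [this]
        exact hS3
      · refine bad_finite hMF b 0 ?_
        rw [zero_smul, add_zero]
        exact hR3 b hbm
    obtain ⟨κ, hκ⟩ := hbad.infinite_compl.nonempty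
    refine ⟨R + κ • M, hR1.add (hMF.smul κ), fun v => ?_, fun b hbm => ?_⟩
    · rw [ContinuousLinearMap.add_apply, hR2, ContinuousLinearMap.smul_apply, hMj, smul_zero,
        add_zero]
    · by_contra h
      apply hκ
      simp only [Set.mem_iUnion]
      refine ⟨b, hbm, ?_⟩
      change b ∉ _
      have : N + (K + R) + κ • M = N + (K + (R + κ • M)) := by abel
      rw [this]
      exact h

end Pool.Agent.H920.RN
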