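import Pool.Agent.H933.RN.Stm

/-!
# Finite rank corrections do not change the rate (task P_rate of helper933)
-/

set_option autoImplicit false

open MeasureTheory Metric
open scoped Real

namespace Pool.Agent.H920.RN

open Pool.Agent.H933.LL Pool.Agent.H933.RN

/-- a bounded operator of finite rank is a finite sum of rank one operators -/
lemma exists_rep {X : Type} [NormedAddCommGroup X] [NormedSpace ℂ X]
    (R : X →L[ℂ] X) (hR : FiniteDimensional ℂ (LinearMap.range (R : X →ₗ[ℂ] X))) :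
    ∃ (m : ℕ) (ψ : Fin m → (X →L[ℂ] ℂ)) (g : Fin m → X), R = ∑ i, (ψ i).smulRight (g i) := by
  classical
  let F := LinearMap.range (R : X →ₗ[ℂ] X)
  let b := Module.finBasis ℂ F
  let Rc : X →L[ℂ] F := R.codRestrict F (fun x => ⟨x, rfl⟩)
  refine ⟨Module.finrank ℂ F, fun i => (LinearMap.toContinuousLinearMap (b.coord i)).comp Rc,
    fun i => (b i : X), ?_⟩
  ext x
  have h1 : ∑ i, b.repr (Rc x) i • b i = Rc x := b.sum_repr (Rc x)
  have h2 := congrArg (fun v : F => (v : X)) h1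
  simp only [AddSubmonoidClass.coe_finsetSum, Submodule.coe_smul] at h2
  have h3 : ((Rc x : F) : X) = R x := rfl
  rw [h3] at h2
  rw [← h2]
  simp [Module.Basis.coord_apply]

theorem p_rate : P_rate := by
  intro X _ _ _ S K R E w hw hrate hR
  obtain ⟨m, ψ, g, hRrep⟩ := exists_rep R hR
  let M : ℝ := ∑ i, (‖ψ i‖ + ‖g i‖)
  have hM0 : 0 ≤ M := Finset.sum_nonneg fun i _ => by positivity
  have hMi : ∀ i, ‖ψ i‖ ≤ M ∧ ‖g i‖ ≤ M := by
    intro i
    have : ‖ψ i‖ + ‖g i‖ ≤ M :=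
      Finset.single_le_sum (f := fun i => ‖ψ i‖ + ‖g i‖) (fun i _ => by positivity) (Finset.mem_univ i)
    have a := norm_nonneg (ψ i)
    have b := norm_nonneg (g i)
    constructor <;> linarith
  have hc1 : (1 : ℝ) ≤ 1 + M := by linarith
  have hc0 : (0 : ℝ) < 1 + M := by linarith
  set c : ℝ := 1 + M with hc
  obtain ⟨C, hC⟩ := hrate c hc0
  have hlc : 0 ≤ Real.log c := Real.log_nonneg hc1
  have hl1 : 0 ≤ Real.log ((m : ℝ) + 1) := Real.log_nonneg (by
    have : (0 : ℝ) ≤ m := Nat.cast_nonneg m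
    linarith)
  have hl2 : 0 ≤ Real.log (1 + Real.log c) := Real.log_nonneg (by linarith)
  refine ⟨C + Real.log ((m : ℝ) + 1) + Real.log (1 + Real.log c), hC.res, fun d hd hd1 => ?_⟩
  obtain ⟨n, φ, f, ρ, h1, h2, h3, h4, h5, h6⟩ := hC.approx d hd hd1
  have hρ0 : 0 < ρ := by linarith
  have hwd := hw d
  have hρc : ρ ≤ c * ρ := by nlinarith
  have hcC : (c : ℂ) ≠ 0 := by exact_mod_cast hc0.ne'
  have hnc : ‖((c : ℂ)⁻¹)‖ = c⁻¹ := by
    rw [norm_inv, Complex.norm_real, Real.norm_of_nonneg hc0.le]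
  refine ⟨n + m, Fin.append φ ψ, Fin.append (fun i => (c : ℂ)⁻¹ • f i) g, c * ρ, ?_, ?_, ?_, ?_,
    ?_, ?_⟩
  · nlinarith
  · have e1 : Real.log (((n + m : ℕ) : ℝ) + 1) ≤ Real.log ((n : ℝ) + 1) + Real.log ((m : ℝ) + 1) := by
      rw [← Real.log_mul (by positivity) (by positivity)]
      apply Real.log_le_log (by positivity)
      push_cast
      nlinarith [Nat.cast_nonneg (α := ℝ) n, Nat.cast_nonneg (α := ℝ) m,
        mul_nonneg (Nat.cast_nonneg (α := ℝ) n) (Nat.cast_nonneg (α := ℝ) m)]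
    have e2 : Real.log ((m : ℝ) + 1) ≤ Real.log ((m : ℝ) + 1) * (1 + w d) := by nlinarith
    have e3 : 0 ≤ Real.log (1 + Real.log c) * (1 + w d) := by positivity
    nlinarith
  · have e1 : Real.log (1 + Real.log (c * ρ)) ≤ Real.log (1 + Real.log ρ) + Real.log (1 + Real.log c) := by
      have hlρ : 0 ≤ Real.log ρ := Real.log_nonneg h1
      rw [← Real.log_mul (by positivity) (by positivity), Real.log_mul hc0.ne' hρ0.ne']
      apply Real.log_le_log (by positivity)
      nlinarith [mul_nonneg hlρ hlc]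
    have e2 : Real.log (1 + Real.log c) ≤ Real.log (1 + Real.log c) * (1 + w d) := by nlinarith
    have e3 : 0 ≤ Real.log ((m : ℝ) + 1) * (1 + w d) := by positivity
    nlinarith
  · intro i
    refine Fin.addCases (fun i => ?_) (fun i => ?_) i
    · rw [Fin.append_left, Fin.append_left, norm_smul, hnc]
      refine ⟨(h4 i).1.trans hρc, ?_⟩
      have : c⁻¹ ≤ 1 := inv_le_one_of_one_le₀ hc1
      calc c⁻¹ * ‖f i‖ ≤ 1 * ‖f i‖ := mul_le_mul_of_nonneg_right this (norm_nonneg _)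
        _ ≤ c * ρ := by rw [one_mul]; exact (h4 i).2.trans hρc
    · rw [Fin.append_right, Fin.append_right]
      have e : M ≤ c * ρ := by nlinarith
      exact ⟨(hMi i).1.trans e, (hMi i).2.trans e⟩
  · intro z hz
    exact (h5 z hz).trans hρc
  · rw [Fin.sum_univ_add]
    simp only [Fin.append_left, Fin.append_right]
    rw [← hRrep]
    have e : K + R - (∑ i, (φ i).smulRight ((c : ℂ)⁻¹ • f i) + R) =
        (c : ℂ)⁻¹ • ((c : ℂ) • K - ∑ i, (φ i).smulRight (f i)) := by
      rw [smul_sub, smul_smul, inv_mul_cancel₀ hcC, one_smul, Finset.smul_sum]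
      have : ∀ i, (φ i).smulRight ((c : ℂ)⁻¹ • f i) = (c : ℂ)⁻¹ • (φ i).smulRight (f i) := by
        intro i
        ext x
        rw [ContinuousLinearMap.smulRight_apply, ContinuousLinearMap.smul_apply,
          ContinuousLinearMap.smulRight_apply, smul_comm]
      simp only [this]
      abel
    rw [e, norm_smul, hnc]
    calc c⁻¹ * ‖(c : ℂ) • K - ∑ i, (φ i).smulRight (f i)‖ * (c * ρ)
        = ‖(c : ℂ) • K - ∑ i, (φ i).smulRight (f i)‖ * ρ * (c⁻¹ * c) := by ring
      _ = ‖(c : ℂ) • K - ∑ i, (φ i).smulRight (f i)‖ * ρ := by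
          rw [inv_mul_cancel₀ hc0.ne', mul_one]
      _ ≤ 1 / 2 := h6

end Pool.Agent.H920.RN
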